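import Pool.Agent.H80.LD.Targets

/-!
LMO: convergence of the moments of the approximating fields.
-/

set_option autoImplicit false

open MeasureTheory SchwartzMap Filter Topology
open scoped ENNReal ContDiff InnerProductSpace

namespace Pool.Agent.H49.LD

open Pool.Agent.H80.LD
open Pool.Agent.H43.DPC (V S SD moment trans rot IsMAO Diag)

variable {d : ℕ} {e : V d}

theorem fld_cont (A : Sys d e) (f : S d) : Continuous (A.fld f) := by
  unfold Sys.fld
  fun_prop

theorem fld_lin (A : Sys d e) {n : ℕ} (c : Fin n → ℝ) (f : Fin n → S d) (φ : Fin A.N → ℝ) :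
    A.fld (∑ i, c i • f i) φ = ∑ i, c i * A.fld (f i) φ := by
  unfold Sys.fld
  have h : ∀ x, (∑ i, c i • f i) x = ∑ i, c i * f i x := by
    intro x
    rw [sum_apply]
    rfl
  simp only [h, Finset.mul_sum]
  rw [Finset.sum_comm]
  refine Finset.sum_congr rfl fun i _ => Finset.sum_congr rfl fun x _ => ?_
  ring

theorem fld_smul (A : Sys d e) (t : ℝ) (f : S d) (φ : Fin A.N → ℝ) :
    A.fld (t • f) φ = t * A.fld f φ := by
  unfold Sys.fld
  rw [Finset.mul_sum]
  refine Finset.sum_congr rfl fun x _ => ?_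
  have h : (t • f) (A.pos x) = t * f (A.pos x) := rfl
  rw [h]
  ring

theorem ev_lin (T : SD d) {n : ℕ} (c : Fin n → ℝ) (f : Fin n → S d) :
    T (∑ i, c i • f i) = ∑ i, c i * T (f i) := by
  rw [map_sum]
  refine Finset.sum_congr rfl fun i _ => ?_
  rw [map_smul]
  rfl

/-- a Gaussian bound for the field -/
theorem fld_le (A : Sys d e) (f : S d) (φ : Fin A.N → ℝ) :
    |A.fld f φ| ≤ (∑ x, |A.w x * f (A.pos x)|) * Real.exp (∑ x, φ x ^ 2) := by
  unfold Sys.fld
  refine (Finset.abs_sum_le_sum_abs _ _).trans ?_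
  rw [Finset.sum_mul]
  refine Finset.sum_le_sum fun x _ => ?_
  have h1 : |A.w x * φ x * f (A.pos x)| = |A.w x * f (A.pos x)| * |φ x| := by
    rw [← abs_mul]
    congr 1
    ring
  rw [h1]
  refine mul_le_mul_of_nonneg_left ?_ (abs_nonneg _)
  have h2 : φ x ^ 2 ≤ ∑ x, φ x ^ 2 :=
    Finset.single_le_sum (f := fun x => φ x ^ 2) (fun _ _ => sq_nonneg _) (Finset.mem_univ x)
  have h3 := Real.add_one_le_exp (∑ x, φ x ^ 2)
  have h4 : |φ x| ≤ φ x ^ 2 + 1 := by
    nlinarith [sq_abs (φ x), sq_nonneg (|φ x| - 1), abs_nonneg (φ x)]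
  linarith

theorem fld_int (hLAW : T_LAW) (A : Sys d e) (f : S d) (n : ℕ) :
    Integrable (fun φ => A.fld f φ ^ n) A.law := by
  obtain ⟨_, _, _, _, h5⟩ := hLAW d e A
  set M : ℝ := ∑ x, |A.w x * f (A.pos x)| with hM
  have hM0 : 0 ≤ M := Finset.sum_nonneg fun _ _ => abs_nonneg _
  refine h5 _ (M ^ n + n) ((fld_cont A f).pow n) fun φ => ?_
  have hS : 0 ≤ ∑ x, φ x ^ 2 := Finset.sum_nonneg fun _ _ => sq_nonneg _
  rw [abs_pow]
  have h1 : |A.fld f φ| ^ n ≤ (M * Real.exp (∑ x, φ x ^ 2)) ^ n :=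
    pow_le_pow_left₀ (abs_nonneg _) (fld_le A f φ) n
  refine h1.trans ?_
  rw [mul_pow, ← Real.exp_nat_mul]
  have hMn : 0 ≤ M ^ n := pow_nonneg hM0 n
  have hn : (0 : ℝ) ≤ n := Nat.cast_nonneg n
  refine mul_le_mul (by linarith) (Real.exp_le_exp.2 ?_) (Real.exp_nonneg _) (by linarith)
  exact mul_le_mul_of_nonneg_right (by linarith) hS

theorem mf_replicate (A : Sys d e) (f : S d) (n : ℕ) :
    mf A (List.replicate n f) = ∫ φ, A.fld f φ ^ n ∂A.law := by
  unfold mf
  simp only [List.map_replicate, List.prod_replicate]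

theorem ev_meas (f : S d) : Measurable (fun T : SD d => T f) :=
  (WeakDual.eval_continuous f).measurable

/-- the moments of one test function -/
theorem one_mom (hLAW : T_LAW) (hUMB : T_UMB) (hWMC : T_WMC) (A : ℕ → Sys d e)
    (μ : Measure (SD d)) [IsProbabilityMeasure μ] (hL : Lim A μ) (f : S d) (n : ℕ) :
    Integrable (fun T : SD d => (T f) ^ n) μ ∧
    Tendsto (fun k => ∫ φ, (A k).fld f φ ^ n ∂(A k).law) atTop (𝓝 (∫ T : SD d, (T f) ^ n ∂μ)) := by
  have hP : ∀ k, IsProbabilityMeasure (A k).law := fun k => (hLAW d e (A k)).2.2.1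
  have hmf : ∀ k, Measurable ((A k).fld f) := fun k => (fld_cont (A k) f).measurable
  have hme := ev_meas (d := d) f
  have hpow : ∀ p : ℕ, AEStronglyMeasurable (fun x : ℝ => x ^ p) (μ.map (fun T : SD d => T f)) :=
    fun p => (continuous_pow p).aestronglyMeasurable
  have hpowk : ∀ (k p : ℕ), AEStronglyMeasurable (fun x : ℝ => x ^ p)
      ((A k).law.map ((A k).fld f)) := fun k p => (continuous_pow p).aestronglyMeasurable
  have hex : ∀ t : ℝ, Continuous (fun x : ℝ => Complex.exp (Complex.I * ((t * x : ℝ) : ℂ))) := by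
    intro t
    fun_prop
  obtain ⟨v, hv, hvb⟩ := hUMB d e A μ hL f
  have h := hWMC (fun k => (A k).law.map ((A k).fld f)) (μ.map (fun T : SD d => T f))
    (fun k => @Measure.isProbabilityMeasure_map _ _ _ _ _ (hP k) _ (hmf k).aemeasurable)
    (Measure.isProbabilityMeasure_map hme.aemeasurable) ?_ ?_ n
  · obtain ⟨h1, h2⟩ := h
    refine ⟨(integrable_map_measure (hpow n) hme.aemeasurable).1 h1, ?_⟩
    have e1 : ∀ k, ∫ x, x ^ n ∂((A k).law.map ((A k).fld f)) =
        ∫ φ, (A k).fld f φ ^ n ∂(A k).law := fun k =>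
      integral_map (hmf k).aemeasurable (hpowk k n)
    have e2 : ∫ x, x ^ n ∂(μ.map (fun T : SD d => T f)) = ∫ T : SD d, (T f) ^ n ∂μ :=
      integral_map hme.aemeasurable (hpow n)
    simp only [e1] at h2
    rw [e2] at h2
    exact h2
  · intro t
    have e1 : ∀ k, ∫ x, Complex.exp (Complex.I * ((t * x : ℝ) : ℂ))
        ∂((A k).law.map ((A k).fld f)) =
        ∫ φ, Complex.exp (Complex.I * ((A k).fld (t • f) φ : ℂ)) ∂(A k).law := by
      intro k
      rw [integral_map (hmf k).aemeasurable (hex t).aestronglyMeasurable]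
      simp only [fld_smul]
    have e2 : ∫ x, Complex.exp (Complex.I * ((t * x : ℝ) : ℂ)) ∂(μ.map (fun T : SD d => T f)) =
        ∫ T : SD d, Complex.exp (Complex.I * ((T (t • f) : ℝ) : ℂ)) ∂μ := by
      rw [integral_map hme.aemeasurable (hex t).aestronglyMeasurable]
      refine integral_congr_ae (Filter.Eventually.of_forall fun T => ?_)
      have : T (t • f) = t * T f := by
        rw [map_smul]
        rfl
      simp only [this]
    simp only [e1]
    rw [e2]
    exact hL (t • f)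
  · intro p
    refine ⟨fun k => (integrable_map_measure (hpowk k _) (hmf k).aemeasurable).2
      (fld_int hLAW (A k) f (2 * p)), ((2 * p).factorial : ℝ) * v ^ p, fun k => ?_⟩
    have e1 : ∫ x, x ^ (2 * p) ∂((A k).law.map ((A k).fld f)) =
        ∫ φ, (A k).fld f φ ^ (2 * p) ∂(A k).law :=
      integral_map (hmf k).aemeasurable (hpowk k _)
    have h1 := hvb p k
    rw [mf_replicate] at h1
    rw [e1]
    have h2 : 0 ≤ ∫ φ, (A k).fld f φ ^ (2 * p) ∂(A k).law :=
      integral_nonneg fun φ => (even_two_mul p).pow_nonneg _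
    have h3 : (1 : ℝ) ≤ 2 ^ p * (p.factorial : ℝ) := by
      have h4 : (1 : ℝ) ≤ 2 ^ p := one_le_pow₀ (by norm_num)
      have h5 : (1 : ℝ) ≤ (p.factorial : ℝ) := by exact_mod_cast p.factorial_pos
      nlinarith
    nlinarith

theorem pf_LMO (hLAW : T_LAW) (hUMB : T_UMB) (hWMC : T_WMC) (hPOL : T_POL) : T_LMO := by
  intro d e A μ _ hL
  refine ⟨?_, ?_⟩
  · intro f p hp
    obtain ⟨m, hm⟩ : ∃ m : ℕ, p ≤ m := by
      obtain ⟨m, hm⟩ := ENNReal.exists_nat_gt hp
      exact ⟨m, hm.le⟩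
    have hi := (one_mom hLAW hUMB hWMC A μ hL f (2 * (m + 1))).1
    have hne : ((2 * (m + 1) : ℕ) : ℝ≥0∞) ≠ 0 :=
      Nat.cast_ne_zero.2 (by omega)
    have hM : MemLp (fun T : SD d => T f) ((2 * (m + 1) : ℕ) : ℝ≥0∞) μ := by
      rw [← integrable_norm_rpow_iff (ev_meas f).aestronglyMeasurable hne
        (ENNReal.natCast_ne_top _)]
      refine hi.congr (Filter.Eventually.of_forall fun T => ?_)
      simp only [ENNReal.toReal_natCast, Real.rpow_natCast, Real.norm_eq_abs]
      rw [Even.pow_abs (even_two_mul _)]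
    refine hM.mono_exponent (hm.trans ?_)
    exact_mod_cast (by omega : m ≤ 2 * (m + 1))
  · intro l
    obtain ⟨n, f, rfl⟩ : ∃ (n : ℕ) (f : Fin n → S d), l = List.ofFn f :=
      ⟨l.length, l.get, (List.ofFn_get l).symm⟩
    set c : (Fin n → Bool) → Fin n → ℝ := fun ε i => if ε i then (1 : ℝ) else -1 with hc
    have hK : (0 : ℝ) < 2 ^ n * (n.factorial : ℝ) := by positivity
    have e1 : ∀ k, mf (A k) (List.ofFn f) = (2 ^ n * (n.factorial : ℝ))⁻¹ *
        ∑ ε : Fin n → Bool, (∏ i, c ε i) *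
          ∫ φ, (A k).fld (∑ i, c ε i • f i) φ ^ n ∂(A k).law := by
      intro k
      unfold mf
      have h1 : ∀ φ : Fin (A k).N → ℝ, ((List.ofFn f).map (fun f => (A k).fld f φ)).prod =
          (2 ^ n * (n.factorial : ℝ))⁻¹ * ∑ ε : Fin n → Bool, (∏ i, c ε i) *
            (A k).fld (∑ i, c ε i • f i) φ ^ n := by
        intro φ
        rw [List.map_ofFn, List.prod_ofFn, eq_inv_mul_iff_mul_eq₀ hK.ne']
        rw [show (∏ i, ((fun f => (A k).fld f φ) ∘ f) i) = ∏ i, (A k).fld (f i) φ from rfl,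
          hPOL n (fun i => (A k).fld (f i) φ)]
        refine Finset.sum_congr rfl fun ε _ => ?_
        rw [fld_lin]
      simp only [h1]
      rw [integral_const_mul, integral_finsetSum]
      · simp only [integral_const_mul]
      · intro ε _
        exact (fld_int hLAW (A k) _ n).const_mul _
    have e2 : ml μ (List.ofFn f) = (2 ^ n * (n.factorial : ℝ))⁻¹ *
        ∑ ε : Fin n → Bool, (∏ i, c ε i) * ∫ T : SD d, (T (∑ i, c ε i • f i)) ^ n ∂μ := by
      unfold ml
      have h1 : ∀ T : SD d, ((List.ofFn f).map (fun f => T f)).prod =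
          (2 ^ n * (n.factorial : ℝ))⁻¹ * ∑ ε : Fin n → Bool, (∏ i, c ε i) *
            (T (∑ i, c ε i • f i)) ^ n := by
        intro T
        rw [List.map_ofFn, List.prod_ofFn, eq_inv_mul_iff_mul_eq₀ hK.ne']
        rw [show (∏ i, ((fun f => T f) ∘ f) i) = ∏ i, T (f i) from rfl,
          hPOL n (fun i => T (f i))]
        refine Finset.sum_congr rfl fun ε _ => ?_
        rw [ev_lin]
      simp only [h1]
      rw [integral_const_mul, integral_finsetSum]
      · simp only [integral_const_mul]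
      · intro ε _
        exact ((one_mom hLAW hUMB hWMC A μ hL _ n).1).const_mul _
    simp only [e1]
    rw [e2]
    refine Tendsto.const_mul _ (tendsto_finsetSum _ fun ε _ => ?_)
    exact ((one_mom hLAW hUMB hWMC A μ hL _ n).2).const_mul _

end Pool.Agent.H49.LD
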